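import Mathlib

namespace Pool.Agent.Results.MP_5ee7f3_co.BridgedMultipartite

open SimpleGraph

/-- `G` contains an immersion of `K_d`: there are `d` distinct corners `v i` and, for `i < j`, a
path `P i j` of `G` from `v i` to `v j`, such that these paths are pairwise edge-disjoint. -/
def HasImmersion {V : Type*} (G : SimpleGraph V) (d : ℕ) : Prop :=
  ∃ (v : Fin d ↪ V) (P : ∀ i j : Fin d, i < j → G.Walk (v i) (v j)),
    (∀ (i j : Fin d) (h : i < j), (P i j h).IsPath) ∧
    (∀ (i j : Fin d) (h : i < j) (i' j' : Fin d) (h' : i' < j'), (i, j) ≠ (i', j') →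
      ∀ e : Sym2 V, e ∈ (P i j h).edges → e ∉ (P i' j' h').edges)

/-! ### General lemmas on walks -/

section walks

variable {V : Type*} {G : SimpleGraph V}

theorem sym_immersion {d : ℕ} (h : HasImmersion G d) :
    ∃ (v : Fin d ↪ V) (W : ∀ i j : Fin d, i ≠ j → G.Walk (v i) (v j)),
      (∀ i j h, (W i j h).IsPath) ∧
      (∀ i j h i' j' h', s(i, j) ≠ s(i', j') →
        ∀ e : Sym2 V, e ∈ (W i j h).edges → e ∉ (W i' j' h').edges) := by
  obtain ⟨v, P, hP, hdis⟩ := h
  refine ⟨v, fun i j hij => if hlt : i < j then P i j hlt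
    else (P j i (lt_of_le_of_ne (not_lt.mp hlt) hij.symm)).reverse, ?_, ?_⟩
  · intro i j hij
    by_cases hlt : i < j
    · simp only [hlt, dite_true]; exact hP i j hlt
    · simp only [hlt, dite_false]
      exact (hP j i _).reverse
  · intro i j hij i' j' hij' hne e he
    by_cases hlt : i < j <;> by_cases hlt' : i' < j'
    · simp only [hlt, hlt', dite_true] at he ⊢
      refine hdis i j hlt i' j' hlt' ?_ e he
      rintro h
      rw [Prod.mk.injEq] at h
      exact hne (by rw [h.1, h.2])
    · simp only [hlt, hlt', dite_true, dite_false, Walk.edges_reverse, List.mem_reverse] at he ⊢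
      refine hdis i j hlt j' i' (lt_of_le_of_ne (not_lt.mp hlt') hij'.symm) ?_ e he
      rintro h
      rw [Prod.mk.injEq] at h
      exact hne (by rw [h.1, h.2, Sym2.eq_swap])
    · simp only [hlt, hlt', dite_true, dite_false, Walk.edges_reverse, List.mem_reverse] at he ⊢
      refine hdis j i (lt_of_le_of_ne (not_lt.mp hlt) hij.symm) i' j' hlt' ?_ e he
      rintro h
      rw [Prod.mk.injEq] at h
      exact hne (by rw [← h.1, ← h.2, Sym2.eq_swap])
    · simp only [hlt, hlt', dite_false, Walk.edges_reverse, List.mem_reverse] at he ⊢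
      refine hdis j i (lt_of_le_of_ne (not_lt.mp hlt) hij.symm) j' i'
        (lt_of_le_of_ne (not_lt.mp hlt') hij'.symm) ?_ e he
      rintro h
      rw [Prod.mk.injEq] at h
      exact hne (by rw [h.1, h.2])

theorem parity [DecidableEq V] (B : V → Prop) (e : Sym2 V)
    (hcross : ∀ x y, G.Adj x y → (s(x, y) = e ↔ ¬ (B x ↔ B y))) :
    ∀ {u v : V} (p : G.Walk u v), (Even (p.edges.count e) ↔ (B u ↔ B v)) := by
  intro u v p
  induction p with
  | nil => simp
  | @cons u w v h p ih =>
    rw [Walk.edges_cons, List.count_cons]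
    have h1 := hcross u w h
    by_cases heq : s(u, w) = e
    · have h2 := h1.mp heq
      simp only [heq, beq_self_eq_true, if_true, Nat.even_add_one, ih]
      tauto
    · have h2 : (B u ↔ B w) := by
        by_contra h3; exact heq (h1.mpr h3)
      have h4 : (s(u, w) == e) = false := by simpa using heq
      simp only [h4, Bool.false_eq_true, if_false, add_zero, ih, h2]

theorem crossing [DecidableEq V] (B : V → Prop) (e : Sym2 V)
    (hcross : ∀ x y, G.Adj x y → (s(x, y) = e ↔ ¬ (B x ↔ B y)))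
    {u v : V} (p : G.Walk u v) (h : ¬ (B u ↔ B v)) : e ∈ p.edges := by
  by_contra hcon
  have h1 := parity B e hcross p
  rw [List.count_eq_zero_of_not_mem hcon] at h1
  exact h (h1.mp (by simp))

theorem staying [DecidableEq V] (B : V → Prop) (e : Sym2 V)
    (hcross : ∀ x y, G.Adj x y → (s(x, y) = e ↔ ¬ (B x ↔ B y)))
    {u v : V} (p : G.Walk u v) (hp : p.IsPath) (h : B u ↔ B v) : e ∉ p.edges := by
  intro hcon
  have h1 := (parity B e hcross p).mpr h
  have h2 : p.edges.count e = 1 := List.count_eq_one_of_mem hp.isTrail.edges_nodup hcon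
  rw [h2] at h1
  exact absurd h1 (by decide)

theorem support_in (B : V → Prop) (e : Sym2 V)
    (hcross : ∀ x y, G.Adj x y → (s(x, y) = e ↔ ¬ (B x ↔ B y)))
    {u v : V} (p : G.Walk u v) (hu : B u) (he : e ∉ p.edges) : ∀ x ∈ p.support, B x := by
  induction p with
  | nil => intro x hx; simp at hx; rw [hx]; exact hu
  | @cons u w v h p ih =>
    rw [Walk.edges_cons, List.mem_cons] at he
    push Not at he
    intro x hx
    rw [Walk.support_cons, List.mem_cons] at hx
    rcases hx with rfl | hx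
    · exact hu
    · refine ih ?_ he.2 x hx
      by_contra hw
      exact he.1 ((hcross u w h).mpr (by tauto)).symm

theorem exists_edge_of_mem_support {u v : V} (p : G.Walk u v) {x : V} (hx : x ∈ p.support)
    (hxu : x ≠ u) : ∃ y, s(x, y) ∈ p.edges := by
  induction p with
  | nil => simp at hx; exact absurd hx hxu
  | @cons u w v h p ih =>
    rw [Walk.support_cons, List.mem_cons] at hx
    rcases hx with rfl | hx
    · exact absurd rfl hxu
    · by_cases hxw : x = w
      · refine ⟨u, ?_⟩
        rw [Walk.edges_cons, List.mem_cons, hxw, Sym2.eq_swap]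
        exact Or.inl rfl
      · obtain ⟨y, hy⟩ := ih hx hxw
        exact ⟨y, by rw [Walk.edges_cons]; exact List.mem_cons_of_mem _ hy⟩

end walks

/-! ### The graph -/

/-- The graph: a complete graph on the vertices `inl c` (`c < m + 1`), and for each `c` a copy
of the complete multipartite graph with `k` parts of size `3`, on the vertices
`inr (c, (part, place))`; the vertex `inl c` is joined to the single vertex `inr (c, (0, 0))`
of the `c`-th copy. -/
def BG (k m : ℕ) : SimpleGraph (Fin (m + 1) ⊕ (Fin (m + 1) × (Fin k × Fin 3))) where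
  Adj x y := match x, y with
    | Sum.inl i, Sum.inl j => i ≠ j
    | Sum.inl i, Sum.inr (c, u) => i = c ∧ (u.1 : ℕ) = 0 ∧ u.2 = 0
    | Sum.inr (c, u), Sum.inl i => i = c ∧ (u.1 : ℕ) = 0 ∧ u.2 = 0
    | Sum.inr (c, u), Sum.inr (c', u') => c = c' ∧ u.1 ≠ u'.1
  symm := ⟨by
    rintro (i | ⟨c, u⟩) (j | ⟨c', u'⟩) h
    · exact fun h' => h h'.symm
    · exact h
    · exact h
    · exact ⟨h.1.symm, h.2.symm⟩⟩
  loopless := ⟨by
    rintro (i | ⟨c, u⟩) h
    · exact h rfl
    · exact h.2 rfl⟩

instance (k m : ℕ) : DecidableRel (BG k m).Adj := by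
  rintro (i | ⟨c, u⟩) (j | ⟨c', u'⟩)
  · exact inferInstanceAs (Decidable (i ≠ j))
  · exact inferInstanceAs (Decidable (i = c' ∧ (u'.1 : ℕ) = 0 ∧ u'.2 = 0))
  · exact inferInstanceAs (Decidable (j = c ∧ (u.1 : ℕ) = 0 ∧ u.2 = 0))
  · exact inferInstanceAs (Decidable (c = c' ∧ u.1 ≠ u'.1))

variable {k m : ℕ}

theorem adj_inl_inl (i j : Fin (m + 1)) :
    (BG k m).Adj (Sum.inl i) (Sum.inl j) ↔ i ≠ j := Iff.rfl

theorem adj_inl_inr (i c : Fin (m + 1)) (u : Fin k × Fin 3) :
    (BG k m).Adj (Sum.inl i) (Sum.inr (c, u)) ↔ i = c ∧ (u.1 : ℕ) = 0 ∧ u.2 = 0 := Iff.rfl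

theorem adj_inr_inl (i c : Fin (m + 1)) (u : Fin k × Fin 3) :
    (BG k m).Adj (Sum.inr (c, u)) (Sum.inl i) ↔ i = c ∧ (u.1 : ℕ) = 0 ∧ u.2 = 0 := Iff.rfl

theorem adj_inr_inr (c c' : Fin (m + 1)) (u u' : Fin k × Fin 3) :
    (BG k m).Adj (Sum.inr (c, u)) (Sum.inr (c', u')) ↔ c = c' ∧ u.1 ≠ u'.1 := Iff.rfl

/-- the vertices of the `c`-th copy -/
def InCopy (c : Fin (m + 1)) (x : Fin (m + 1) ⊕ (Fin (m + 1) × (Fin k × Fin 3))) : Prop :=
  ∃ u, x = Sum.inr (c, u)

theorem cross (hk : 0 < k) (c : Fin (m + 1))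
    (x y : Fin (m + 1) ⊕ (Fin (m + 1) × (Fin k × Fin 3))) (h : (BG k m).Adj x y) :
    (s(x, y) = s(Sum.inl c, Sum.inr (c, ((⟨0, hk⟩ : Fin k), (0 : Fin 3)))) ↔
      ¬ (InCopy c x ↔ InCopy c y)) := by
  have hu : ∀ u : Fin k × Fin 3, (u.1 : ℕ) = 0 ∧ u.2 = 0 ↔ u = (⟨0, hk⟩, 0) := by
    intro u
    constructor
    · rintro ⟨h1, h2⟩
      exact Prod.ext (Fin.ext h1) h2
    · rintro rfl; exact ⟨rfl, rfl⟩
  rcases x with i | ⟨a, u⟩ <;> rcases y with j | ⟨b, w⟩
  · simp [InCopy]
  · rw [adj_inl_inr, hu] at h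
    obtain ⟨rfl, rfl⟩ := h
    by_cases hc : i = c
    · subst hc
      simp [InCopy]
    · have h1 : ¬ InCopy c (Sum.inl i : Fin (m + 1) ⊕ (Fin (m + 1) × (Fin k × Fin 3))) := by
        rintro ⟨_, h⟩; simp at h
      have h2 : ¬ InCopy c (Sum.inr (i, ((⟨0, hk⟩ : Fin k), (0 : Fin 3))) :
          Fin (m + 1) ⊕ (Fin (m + 1) × (Fin k × Fin 3))) := by
        rintro ⟨_, h⟩; simp [hc] at h
      simp [h1, h2, hc]
  · rw [adj_inr_inl, hu] at h
    obtain ⟨rfl, rfl⟩ := h
    by_cases hc : j = c
    · subst hc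
      simp [InCopy]
    · have h1 : ¬ InCopy c (Sum.inl j : Fin (m + 1) ⊕ (Fin (m + 1) × (Fin k × Fin 3))) := by
        rintro ⟨_, h⟩; simp at h
      have h2 : ¬ InCopy c (Sum.inr (j, ((⟨0, hk⟩ : Fin k), (0 : Fin 3))) :
          Fin (m + 1) ⊕ (Fin (m + 1) × (Fin k × Fin 3))) := by
        rintro ⟨_, h⟩; simp [hc] at h
      simp [h1, h2, hc]
  · rw [adj_inr_inr] at h
    obtain ⟨rfl, _⟩ := h
    simp [InCopy]

theorem exists_cons {V : Type*} {G : SimpleGraph V} {a b : V} (p : G.Walk a b) (hab : a ≠ b) :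
    ∃ (y : V) (h : G.Adj a y) (q : G.Walk y b), p = Walk.cons h q := by
  cases p with
  | nil => exact absurd rfl hab
  | cons h q => exact ⟨_, h, q, rfl⟩

theorem card_other_parts (p : Fin k) :
    Fintype.card {w : Fin k × Fin 3 // w.1 ≠ p} = (k - 1) * 3 := by
  rw [Fintype.card_subtype]
  have : (Finset.univ.filter (fun w : Fin k × Fin 3 => w.1 ≠ p))
      = (Finset.univ.erase p) ×ˢ (Finset.univ : Finset (Fin 3)) := by
    ext w; simp
  rw [this, Finset.card_product, Finset.card_erase_of_mem (Finset.mem_univ _)]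
  simp

/-- The graph `BG k m` contains no immersion of `K_{m+2}`. -/
theorem no_immersion (hk : 4 ≤ k) (hm : m + 4 = 3 * k) : ¬ HasImmersion (BG k m) (m + 2) := by
  classical
  intro himm
  obtain ⟨v, W, hW, hdis⟩ := sym_immersion himm
  have hk0 : 0 < k := by omega
  have hcross := fun c => cross (k := k) (m := m) hk0 c
  -- Step A: some corner lies in some copy
  obtain ⟨c, hc⟩ : ∃ c : Fin (m + 1), ∃ i, InCopy c (v i) := by
    by_contra hcon
    push Not at hcon
    have : ∀ i : Fin (m + 2), ∃ j : Fin (m + 1), v i = Sum.inl j := by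
      intro i
      rcases h : v i with j | ⟨c, u⟩
      · exact ⟨j, rfl⟩
      · exact absurd ⟨u, h⟩ (hcon c i)
    choose g hg using this
    have hinj : Function.Injective g := by
      intro i j hij
      apply v.injective
      rw [hg i, hg j, hij]
    have := Fintype.card_le_of_injective g hinj
    simp at this
  -- Step B: all corners lie in this copy
  have hB : ∀ j, InCopy c (v j) := by
    obtain ⟨i, hi⟩ := hc
    intro j
    by_contra hj
    have hij : i ≠ j := by rintro rfl; exact hj hi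
    obtain ⟨l, hl⟩ : ∃ l : Fin (m + 2), l ∉ ({i, j} : Finset (Fin (m + 2))) := by
      by_contra hcon
      push Not at hcon
      have h1 : (Finset.univ : Finset (Fin (m + 2))) ⊆ {i, j} := fun l _ => hcon l
      have h2 := Finset.card_le_card h1
      have h3 : ({i, j} : Finset (Fin (m + 2))).card ≤ 2 := Finset.card_le_two
      rw [Finset.card_univ, Fintype.card_fin] at h2
      omega
    rw [Finset.mem_insert, Finset.mem_singleton] at hl
    push Not at hl
    obtain ⟨hli, hlj⟩ := hl
    have h1 := crossing (InCopy c) _ (hcross c) (W i j hij) (by tauto)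
    by_cases hl : InCopy c (v l)
    · have h2 := crossing (InCopy c) _ (hcross c) (W l j hlj) (by tauto)
      refine hdis i j hij l j hlj ?_ _ h1 h2
      rw [Ne, Sym2.eq_iff]
      rintro (⟨h, _⟩ | ⟨h, _⟩)
      · exact hli h.symm
      · exact hij h
    · have h2 := crossing (InCopy c) _ (hcross c) (W i l hli.symm) (by tauto)
      refine hdis i j hij i l hli.symm ?_ _ h1 h2
      rw [Ne, Sym2.eq_iff]
      rintro (⟨_, h⟩ | ⟨h, _⟩)
      · exact hlj h.symm
      · exact hli h.symm
  -- Step C: all vertices of the paths lie in this copy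
  have hC : ∀ i j h, ∀ x ∈ (W i j h).support, InCopy c x := by
    intro i j h
    have h1 := staying (InCopy c) _ (hcross c) (W i j h) (hW i j h)
      ⟨fun _ => hB j, fun _ => hB i⟩
    exact support_in (InCopy c) _ (hcross c) (W i j h) (hB i) h1
  choose f hf using hB
  have hfinj : Function.Injective f := by
    intro i j hij
    apply v.injective
    rw [hf i, hf j, hij]
  -- the first edge of a path
  have hfirst : ∀ i j (h : i ≠ j), ∃ w : Fin k × Fin 3, w.1 ≠ (f i).1 ∧
      ∃ (hadj : (BG k m).Adj (v i) (Sum.inr (c, w)))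
        (q : (BG k m).Walk (Sum.inr (c, w)) (v j)), W i j h = Walk.cons hadj q := by
    intro i j h
    obtain ⟨y, hadj, q, hq⟩ := exists_cons (W i j h) (fun h' => h (v.injective h'))
    have hy : y ∈ (W i j h).support := by
      rw [hq, Walk.support_cons]
      exact List.mem_cons_of_mem _ q.start_mem_support
    obtain ⟨w, rfl⟩ := hC i j h y hy
    refine ⟨w, ?_, hadj, q, hq⟩
    have h2 := hadj
    rw [hf i, adj_inr_inr] at h2
    exact h2.2.symm
  -- Step E: all edges at a corner are first edges of paths starting there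
  have hE : ∀ i (w : Fin k × Fin 3), w.1 ≠ (f i).1 →
      ∃ j, ∃ h : i ≠ j, s(v i, Sum.inr (c, w)) ∈ (W i j h).edges := by
    intro i
    have h1 : ∀ j : {j // i ≠ j}, ∃ w : {w : Fin k × Fin 3 // w.1 ≠ (f i).1},
        s(v i, Sum.inr (c, w.1)) ∈ (W i j.1 j.2).edges := by
      rintro ⟨j, hj⟩
      obtain ⟨w, hw, hadj, q, hq⟩ := hfirst i j hj
      refine ⟨⟨w, hw⟩, ?_⟩
      change s(v i, Sum.inr (c, w)) ∈ (W i j hj).edges
      rw [hq, Walk.edges_cons]
      exact List.mem_cons_self
    choose g hg using h1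
    have hginj : Function.Injective g := by
      intro j j' hjj
      by_contra hne
      have h2 := hg j
      have h3 := hg j'
      rw [hjj] at h2
      refine hdis i j.1 j.2 i j'.1 j'.2 ?_ _ h2 h3
      rw [Ne, Sym2.eq_iff]
      rintro (⟨_, h⟩ | ⟨h, _⟩)
      · exact hne (Subtype.ext h)
      · exact j'.2 h
    have hcard : Fintype.card {j // i ≠ j}
        = Fintype.card {w : Fin k × Fin 3 // w.1 ≠ (f i).1} := by
      rw [card_other_parts]
      have h2 : Fintype.card {j // i ≠ j} = m + 1 := by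
        rw [Fintype.card_subtype]
        have : (Finset.univ.filter (fun j : Fin (m + 2) => i ≠ j))
            = Finset.univ.erase i := by
          ext j; simp [eq_comm]
        rw [this, Finset.card_erase_of_mem (Finset.mem_univ _)]
        simp
      rw [h2]; omega
    have hgsurj := ((Fintype.bijective_iff_injective_and_card g).mpr ⟨hginj, hcard⟩).2
    intro w hw
    obtain ⟨j, hj⟩ := hgsurj ⟨w, hw⟩
    refine ⟨j.1, j.2, ?_⟩
    have := hg j
    rw [hj] at this
    exact this
  -- Step F: no path passes through a third corner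
  have hF : ∀ i j l (h : j ≠ l), i ≠ j → i ≠ l → v i ∉ (W j l h).support := by
    intro i j l h hij hil hmem
    obtain ⟨y, hy⟩ := exists_edge_of_mem_support (W j l h) hmem
      (fun h' => hij (v.injective h'))
    have hysupp : y ∈ (W j l h).support :=
      (W j l h).snd_mem_support_of_mem_edges hy
    obtain ⟨w, rfl⟩ := hC j l h y hysupp
    have hadj : (BG k m).Adj (v i) (Sum.inr (c, w)) := (W j l h).adj_of_mem_edges hy
    rw [hf i, adj_inr_inr] at hadj
    obtain ⟨j', hj', hmem'⟩ := hE i w hadj.2.symm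
    refine hdis i j' hj' j l h ?_ _ hmem' hy
    rw [Ne, Sym2.eq_iff]
    rintro (⟨h1, _⟩ | ⟨h1, _⟩)
    · exact hij h1
    · exact hil h1
  -- Step G: exactly two places of the copy are not corners
  have hG : ∃ a b : Fin k × Fin 3, a ≠ b ∧ ∀ w, (∀ i, f i ≠ w) ↔ (w = a ∨ w = b) := by
    have h1 : ((Finset.univ.image f)ᶜ : Finset (Fin k × Fin 3)).card = 2 := by
      rw [Finset.card_compl, Finset.card_image_of_injective _ hfinj]
      simp
      omega
    obtain ⟨a, b, hab, h2⟩ := Finset.card_eq_two.mp h1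
    refine ⟨a, b, hab, fun w => ?_⟩
    have h3 : w ∈ ((Finset.univ.image f)ᶜ : Finset (Fin k × Fin 3)) ↔ (∀ i, f i ≠ w) := by
      simp
    rw [← h3, h2]
    simp
  obtain ⟨a, b, hab, hab'⟩ := hG
  let A : Fin k × Fin 3 → Fin (m + 1) ⊕ (Fin (m + 1) × (Fin k × Fin 3)) := fun w => Sum.inr (c, w)
  -- Step I
  have hI : ∀ i j (h : i ≠ j), (f i).1 = (f j).1 →
      s(A a, A b) ∉ (W i j h).edges →
      ∃ w, (w = a ∨ w = b) ∧ s(v i, A w) ∈ (W i j h).edges ∧ s(v j, A w) ∈ (W i j h).edges := by
    intro i j h hpart hnab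
    obtain ⟨w, hw, hadj, q, hq⟩ := hfirst i j h
    have hwsupp : (Sum.inr (c, w) : Fin (m + 1) ⊕ (Fin (m + 1) × (Fin k × Fin 3)))
        ∈ (W i j h).support := by
      rw [hq, Walk.support_cons]
      exact List.mem_cons_of_mem _ q.start_mem_support
    have hwj : (Sum.inr (c, w) : Fin (m + 1) ⊕ (Fin (m + 1) × (Fin k × Fin 3))) ≠ v j := by
      rw [hf j]
      intro h'
      simp only [Sum.inr.injEq, Prod.mk.injEq, true_and] at h'
      exact hw (by rw [h', hpart])
    have hwnc : ∀ l, f l ≠ w := by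
      intro l hl
      have hvl : v l = Sum.inr (c, w) := by rw [hf l, hl]
      by_cases hli : l = i
      · exact hw (by rw [← hl, hli])
      · by_cases hlj : l = j
        · exact hwj (by rw [← hvl, hlj])
        · exact hF l i j h hli hlj (by rw [hvl]; exact hwsupp)
    have hwab := (hab' w).mp hwnc
    obtain ⟨z, hadj2, r, hr⟩ := exists_cons q hwj
    have hzsupp : z ∈ (W i j h).support := by
      rw [hq, hr, Walk.support_cons, Walk.support_cons]
      exact List.mem_cons_of_mem _ (List.mem_cons_of_mem _ r.start_mem_support)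
    have he1 : s(v i, A w) ∈ (W i j h).edges := by
      rw [hq, Walk.edges_cons]; exact List.mem_cons_self
    have he2 : s(A w, z) ∈ (W i j h).edges := by
      rw [hq, hr, Walk.edges_cons, Walk.edges_cons]
      exact List.mem_cons_of_mem _ List.mem_cons_self
    by_cases hzj : z = v j
    · refine ⟨w, hwab, he1, ?_⟩
      rw [hzj] at he2
      rw [Sym2.eq_swap]; exact he2
    · exfalso
      have hzi : z ≠ v i := by
        intro hzi
        have hnd := (hW i j h).support_nodup
        rw [hq, Walk.support_cons, List.nodup_cons] at hnd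
        apply hnd.1
        rw [hr, Walk.support_cons]
        exact List.mem_cons_of_mem _ (by rw [← hzi]; exact r.start_mem_support)
      obtain ⟨w', rfl⟩ := hC i j h z hzsupp
      have hw'nc : ∀ l, f l ≠ w' := by
        intro l hl
        have hvl : v l = Sum.inr (c, w') := by rw [hf l, hl]
        by_cases hli : l = i
        · exact hzi (by rw [← hvl, hli])
        · by_cases hlj : l = j
          · exact hzj (by rw [← hvl, hlj])
          · exact hF l i j h hli hlj (by rw [hvl]; exact hzsupp)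
      have hw'ab := (hab' w').mp hw'nc
      have hww' : w ≠ w' := by
        rintro rfl
        exact hadj2.ne rfl
      apply hnab
      rcases hwab with h1 | h1 <;> rcases hw'ab with h2 | h2
      · exact absurd (h1.trans h2.symm) hww'
      · rw [h1, h2] at he2; exact he2
      · rw [h1, h2, Sym2.eq_swap] at he2; exact he2
      · exact absurd (h1.trans h2.symm) hww'
  -- Step J: in a part without `a` and `b`, some path uses the edge `a b`
  have hJ : ∀ p : Fin k, p ≠ a.1 → p ≠ b.1 →
      ∃ i j, ∃ h : i ≠ j, (f i).1 = p ∧ (f j).1 = p ∧ s(A a, A b) ∈ (W i j h).edges := by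
    intro p hpa hpb
    by_contra hcon
    push Not at hcon
    have hcorner : ∀ t : Fin 3, ∃ i, f i = (p, t) := by
      intro t
      by_contra hcon2
      push Not at hcon2
      rcases (hab' (p, t)).mp hcon2 with h | h
      · exact hpa (by rw [← h])
      · exact hpb (by rw [← h])
    choose g hg using hcorner
    have hgne : ∀ t t', t ≠ t' → g t ≠ g t' := by
      intro t t' htt h
      have := hg t
      rw [h, hg t'] at this
      exact htt (by simpa using this.symm)
    have h01 := hgne 0 1 (by decide)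
    have h12 := hgne 1 2 (by decide)
    have h02 := hgne 0 2 (by decide)
    have hp : ∀ t, (f (g t)).1 = p := fun t => by rw [hg t]
    obtain ⟨w1, hw1, e1, e1'⟩ := hI (g 0) (g 1) h01 (by rw [hp, hp]) (hcon _ _ _ (hp 0) (hp 1))
    obtain ⟨w2, hw2, e2, e2'⟩ := hI (g 1) (g 2) h12 (by rw [hp, hp]) (hcon _ _ _ (hp 1) (hp 2))
    obtain ⟨w3, hw3, e3, e3'⟩ := hI (g 0) (g 2) h02 (by rw [hp, hp]) (hcon _ _ _ (hp 0) (hp 2))
    have n12 : w1 ≠ w2 := by
      rintro rfl
      refine hdis _ _ h01 _ _ h12 ?_ _ e1' e2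
      rw [Ne, Sym2.eq_iff]
      rintro (⟨h, _⟩ | ⟨h, _⟩)
      · exact h01 h
      · exact h02 h
    have n23 : w2 ≠ w3 := by
      rintro rfl
      refine hdis _ _ h12 _ _ h02 ?_ _ e2' e3'
      rw [Ne, Sym2.eq_iff]
      rintro (⟨h, _⟩ | ⟨h, _⟩)
      · exact h01 h.symm
      · exact h12 h
    have n13 : w1 ≠ w3 := by
      rintro rfl
      refine hdis _ _ h01 _ _ h02 ?_ _ e1 e3
      rw [Ne, Sym2.eq_iff]
      rintro (⟨_, h⟩ | ⟨_, h⟩)
      · exact h12 h
      · exact h01 h.symm
    rcases hw1 with h1 | h1 <;> rcases hw2 with h2 | h2 <;> rcases hw3 with h3 | h3 <;>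
      first
        | exact n12 (h1.trans h2.symm)
        | exact n23 (h2.trans h3.symm)
        | exact n13 (h1.trans h3.symm)
  -- Step K: two such parts
  obtain ⟨p, hp⟩ : ∃ p, p ∉ ({a.1, b.1} : Finset (Fin k)) := by
    by_contra hcon
    push Not at hcon
    have h1 : (Finset.univ : Finset (Fin k)) ⊆ {a.1, b.1} := fun l _ => hcon l
    have h2 := Finset.card_le_card h1
    have h3 : ({a.1, b.1} : Finset (Fin k)).card ≤ 2 := Finset.card_le_two
    rw [Finset.card_univ, Fintype.card_fin] at h2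
    omega
  obtain ⟨q, hq⟩ : ∃ q, q ∉ ({p, a.1, b.1} : Finset (Fin k)) := by
    by_contra hcon
    push Not at hcon
    have h1 : (Finset.univ : Finset (Fin k)) ⊆ {p, a.1, b.1} := fun l _ => hcon l
    have h2 := Finset.card_le_card h1
    have h3 : ({p, a.1, b.1} : Finset (Fin k)).card ≤ 3 := Finset.card_le_three
    rw [Finset.card_univ, Fintype.card_fin] at h2
    omega
  simp only [Finset.mem_insert, Finset.mem_singleton, not_or] at hp hq
  obtain ⟨i, j, hij, hpi, hpj, he⟩ := hJ p hp.1 hp.2
  obtain ⟨i', j', hij', hqi, hqj, he'⟩ := hJ q hq.2.1 hq.2.2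
  refine hdis i j hij i' j' hij' ?_ _ he he'
  rw [Ne, Sym2.eq_iff]
  rintro (⟨h, _⟩ | ⟨h, _⟩)
  · exact hq.1 (by rw [← hqi, ← h, hpi])
  · exact hq.1 (by rw [← hqj, ← h, hpi])

/-! ### Minimum degree -/

theorem degree_inl (hk : 0 < k) (c : Fin (m + 1)) : (BG k m).degree (Sum.inl c) = m + 1 := by
  classical
  have h1 : (BG k m).neighborFinset (Sum.inl c)
      = insert (Sum.inr (c, ((⟨0, hk⟩ : Fin k), (0 : Fin 3))))
        ((Finset.univ.erase c).image Sum.inl) := by
    ext x
    rw [mem_neighborFinset]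
    rcases x with j | ⟨c', u⟩
    · rw [adj_inl_inl]
      simp [eq_comm]
    · rw [adj_inl_inr]
      simp only [Finset.mem_insert, Sum.inr.injEq, Prod.mk.injEq, Finset.mem_image, reduceCtorEq,
        and_false, exists_false, or_false]
      constructor
      · rintro ⟨h1, h2, h3⟩
        exact ⟨h1.symm, Prod.ext (Fin.ext h2) h3⟩
      · rintro ⟨h1, rfl⟩
        exact ⟨h1.symm, rfl, rfl⟩
  rw [← card_neighborFinset_eq_degree, h1, Finset.card_insert_of_notMem (by simp),
    Finset.card_image_of_injective _ Sum.inl_injective,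
    Finset.card_erase_of_mem (Finset.mem_univ _)]
  simp

theorem degree_inr (c : Fin (m + 1)) (u : Fin k × Fin 3) :
    (k - 1) * 3 ≤ (BG k m).degree (Sum.inr (c, u)) := by
  classical
  rw [← card_other_parts u.1, Fintype.card_subtype, ← card_neighborFinset_eq_degree]
  rw [← Finset.card_image_of_injective (f := fun w : Fin k × Fin 3 =>
    (Sum.inr (c, w) : Fin (m + 1) ⊕ (Fin (m + 1) × (Fin k × Fin 3)))) _
    (fun a b h => by simpa using h)]
  apply Finset.card_le_card
  intro x hx
  rw [Finset.mem_image] at hx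
  obtain ⟨w, hw, rfl⟩ := hx
  rw [mem_neighborFinset, adj_inr_inr]
  rw [Finset.mem_filter] at hw
  exact ⟨rfl, hw.2.symm⟩

theorem minDegree_BG (hk : 4 ≤ k) (hm : m + 4 = 3 * k) : (BG k m).minDegree = m + 1 := by
  have : Nonempty (Fin (m + 1) ⊕ (Fin (m + 1) × (Fin k × Fin 3))) := ⟨Sum.inl 0⟩
  apply le_antisymm
  · exact ((BG k m).minDegree_le_degree (Sum.inl 0)).trans
      (degree_inl (k := k) (m := m) (by omega) 0).le
  · apply le_minDegree_of_forall_le_degree
    rintro (c | ⟨c, u⟩)
    · rw [degree_inl (by omega)]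
    · refine le_trans ?_ (degree_inr c u)
      omega

/-! ### Chromatic number -/

theorem chromaticNumber_BG (hk : 4 ≤ k) (hm : m + 4 = 3 * k) :
    (BG k m).chromaticNumber = ((m + 1 : ℕ) : ℕ∞) := by
  apply le_antisymm
  · have hkm : k ≤ m := by omega
    let col : Fin (m + 1) ⊕ (Fin (m + 1) × (Fin k × Fin 3)) → Fin (m + 1) := fun x =>
      match x with
      | Sum.inl c => c
      | Sum.inr (c, u) => c.succAbove (Fin.castLE hkm u.1)
    have hcol : ∀ x y, (BG k m).Adj x y → col x ≠ col y := by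
      rintro (i | ⟨c, u⟩) (j | ⟨c', u'⟩) h
      · exact h
      · rw [adj_inl_inr] at h
        obtain ⟨rfl, _⟩ := h
        exact (Fin.succAbove_ne _ _).symm
      · rw [adj_inr_inl] at h
        obtain ⟨rfl, _⟩ := h
        exact Fin.succAbove_ne _ _
      · rw [adj_inr_inr] at h
        obtain ⟨rfl, h⟩ := h
        intro h'
        apply h
        have h2 : Fin.castLE hkm u.1 = Fin.castLE hkm u'.1 :=
          Fin.succAbove_right_injective h'
        exact Fin.ext (by simpa using congrArg Fin.val h2)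
    have hC : (BG k m).Colorable (m + 1) := ⟨Coloring.mk col (fun {x y} h => hcol x y h)⟩
    exact hC.chromaticNumber_le
  · have hclique : (BG k m).IsClique
        ((Finset.univ.image (Sum.inl : Fin (m + 1) → Fin (m + 1) ⊕ (Fin (m + 1) ×
          (Fin k × Fin 3))) : Finset _) : Set _) := by
      intro x hx y hy hxy
      simp only [Finset.coe_image, Finset.coe_univ, Set.image_univ, Set.mem_range] at hx hy
      obtain ⟨i, rfl⟩ := hx
      obtain ⟨j, rfl⟩ := hy
      rw [adj_inl_inl]
      exact fun h => hxy (by rw [h])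
    have h := hclique.card_le_chromaticNumber
    rw [Finset.card_image_of_injective _ Sum.inl_injective] at h
    simpa using h

/-- **Main theorem.** For every `k ≥ 4` put `d = 3 k - 2` (so `d = 10, 13, 16, ...`). There is
a finite simple graph `G` with minimum degree `d - 1` and chromatic number `d - 1` which
contains no immersion of `K_d`. -/
theorem result (k : ℕ) (hk : 4 ≤ k) (d : ℕ) (hd : d = 3 * k - 2) :
    ∃ (V : Type) (_ : Fintype V) (G : SimpleGraph V) (_ : DecidableRel G.Adj),
      G.minDegree = d - 1 ∧ G.chromaticNumber = ((d - 1 : ℕ) : ℕ∞) ∧ ¬ HasImmersion G d := by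
  obtain ⟨m, hm⟩ : ∃ m, m + 4 = 3 * k := ⟨3 * k - 4, by omega⟩
  have hd' : d = m + 2 := by omega
  subst hd'
  exact ⟨_, inferInstance, BG k m, inferInstance, minDegree_BG hk hm, chromaticNumber_BG hk hm,
    no_immersion hk hm⟩

end Pool.Agent.Results.MP_5ee7f3_co.BridgedMultipartite
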